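import Mathlib

set_option autoImplicit false

namespace Pool.Agent.Results.MP_a8a70f_gt.K2Hausdorff

open Set Filter Topology

universe u v

/-- The equivalence relation collapsing `A`. -/
def S {Y : Type u} (A : Set Y) : Setoid Y where
  r x y := x = y ∨ (x ∈ A ∧ y ∈ A)
  iseqv := ⟨fun _ => Or.inl rfl, fun h => h.imp Eq.symm And.symm, by
    rintro x y z (rfl | h) (rfl | h')
    exacts [Or.inl rfl, Or.inr h', Or.inr h, Or.inr ⟨h.1, h'.2⟩]⟩

/-- The set `Y / A`. -/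
def FMQ {Y : Type u} (A : Set Y) : Type u := Quotient (S A)

/-- The projection. -/
def q {Y : Type u} (A : Set Y) (x : Y) : FMQ A := Quotient.mk (S A) x

/-- The topology of `FMQ(Y, A, D_Y)`. -/
instance fmqTop {Y : Type u} [TopologicalSpace Y] (A : Set Y) : TopologicalSpace (FMQ A) where
  IsOpen U := IsOpen (q A ⁻¹' U) ∧ ((∃ a ∈ A, q A a ∈ U) → Dense (q A ⁻¹' U))
  isOpen_univ := by simp
  isOpen_inter := fun U V hU hV => ⟨hU.1.inter hV.1, fun ⟨a, ha, h⟩ =>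
    (hU.2 ⟨a, ha, h.1⟩).inter_of_isOpen_left (hV.2 ⟨a, ha, h.2⟩) hU.1⟩
  isOpen_sUnion := fun T hT => ⟨by
    rw [preimage_sUnion]; exact isOpen_biUnion fun U hU => (hT U hU).1,
    fun ⟨a, ha, U, hU, h⟩ =>
      ((hT U hU).2 ⟨a, ha, h⟩).mono (preimage_mono (subset_sUnion_of_mem hU))⟩

/-- `k₂`-Hausdorff. -/
def K2Haus (X : Type u) [TopologicalSpace X] : Prop :=
  ∀ (K : Type v) [TopologicalSpace K] [CompactSpace K] [T2Space K] (f : K → X), Continuous f →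
    IsClosed {p : K × K | f p.1 = f p.2}

section
variable {Y : Type u} {A : Set Y}

theorem q_eq {x y : Y} : q A x = q A y ↔ x = y ∨ (x ∈ A ∧ y ∈ A) := Quotient.eq

theorem q_surj (z : FMQ A) : ∃ x, q A x = z := Quotient.exists_rep z

theorem pre_image {K : Set Y} (hK : K ⊆ Aᶜ) : q A ⁻¹' (q A '' K) = K := by
  ext x
  refine ⟨?_, fun h => ⟨x, h, rfl⟩⟩
  rintro ⟨y, hy, e⟩
  rcases q_eq.1 e with rfl | h
  · exact hy
  · exact (hK hy h.1).elim

theorem star_notMem {K : Set Y} (hK : K ⊆ Aᶜ) {a : Y} (ha : a ∈ A) : q A a ∉ q A '' K := fun h =>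
  hK (show a ∈ K from pre_image hK ▸ h) ha

variable [TopologicalSpace Y]

theorem open_image {V : Set Y} (hV : IsOpen V) (hA : V ⊆ Aᶜ) : IsOpen (q A '' V) :=
  ⟨by rwa [pre_image hA], fun ⟨_, ha, h⟩ => (star_notMem hA ha h).elim⟩

theorem closed_image {N : Set Y} (hN : IsClosed N) (hd : Dense Nᶜ) (hA : N ⊆ Aᶜ) :
    IsClosed (q A '' N) :=
  ⟨⟨by rw [preimage_compl, pre_image hA]; exact hN.isOpen_compl,
    fun _ => by rwa [preimage_compl, pre_image hA]⟩⟩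

theorem exists_family [T3Space Y] [PerfectSpace Y] (y : Y) : ∃ 𝒰 : Set (Set Y),
    (∀ U ∈ 𝒰, IsOpen U ∧ y ∉ closure U) ∧ 𝒰.Pairwise Disjoint ∧ Dense (⋃₀ 𝒰) := by
  obtain ⟨𝒰, hm⟩ := zorn_subset
    {𝒰 : Set (Set Y) | (∀ U ∈ 𝒰, IsOpen U ∧ y ∉ closure U) ∧ 𝒰.Pairwise Disjoint}
    (fun c hc hch => ⟨⋃₀ c, ⟨fun A ⟨s, hs, hA⟩ => (hc hs).1 A hA, by
      rintro A ⟨s, hs, hA⟩ B ⟨t, ht, hB⟩ hAB
      rcases hch.total hs ht with h | h
      · exact (hc ht).2 (h hA) hB hAB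
      · exact (hc hs).2 hA (h hB) hAB⟩, fun s hs => subset_sUnion_of_mem hs⟩)
  refine ⟨𝒰, hm.prop.1, hm.prop.2, dense_iff_inter_open.2 fun V hV ⟨x, hx⟩ => ?_⟩
  by_contra hne
  obtain ⟨z, hz, hzy⟩ : ∃ z ∈ V, z ≠ y := by
    obtain ⟨z, hz, hzy⟩ := (infinite_of_mem_nhds x (hV.mem_nhds hx)).exists_notMem_finite
      (finite_singleton y)
    exact ⟨z, hz, hzy⟩
  obtain ⟨C, hC, hCc, hCV⟩ := exists_mem_nhds_isClosed_subset
    ((hV.inter isOpen_compl_singleton).mem_nhds ⟨hz, hzy⟩)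
  have hd : ∀ U ∈ 𝒰, Disjoint (interior C) U := fun U hU => disjoint_left.2 fun t ht htU =>
    hne ⟨t, (hCV (interior_subset ht)).1, U, hU, htU⟩
  have hmem : insert (interior C) 𝒰 ∈
      {𝒰 : Set (Set Y) | (∀ U ∈ 𝒰, IsOpen U ∧ y ∉ closure U) ∧ 𝒰.Pairwise Disjoint} := by
    refine ⟨?_, hm.prop.2.insert fun U hU _ => ⟨hd U hU, (hd U hU).symm⟩⟩
    rintro U (rfl | hU)
    · exact ⟨isOpen_interior, fun h =>
        (hCV (hCc.closure_subset_iff.2 interior_subset h)).2 rfl⟩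
    · exact hm.prop.1 U hU
  have hE : interior C ∈ 𝒰 := hm.2 hmem (subset_insert _ _) (mem_insert _ _)
  exact disjoint_left.1 (hd _ hE) (mem_interior_iff_mem_nhds.2 hC) (mem_interior_iff_mem_nhds.2 hC)

theorem core [CompactSpace Y] [T2Space Y] [PerfectSpace Y] (hA : IsClosed A)
    {K : Type v} [TopologicalSpace K] [CompactSpace K] [T2Space K] {f : K → FMQ A}
    (hf : Continuous f) {W : Set Y} (hW : IsClosed W) (hWA : W ⊆ Aᶜ) {a : K} {a₀ : Y}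
    (ha₀ : a₀ ∈ A) (ha : q A a₀ = f a) : a ∉ closure (f ⁻¹' (q A '' W)) := by
  suffices h : ∀ y : Y, ∃ V ∈ 𝓝 y, a ∉ closure (f ⁻¹' (q A '' (V ∩ W))) by
    have := isCompact_univ.induction_on
      (p := fun V : Set Y => a ∉ closure (f ⁻¹' (q A '' (V ∩ W)))) (by simp)
      (fun s t hst h h' => h (closure_mono (preimage_mono (image_mono
        (inter_subset_inter_left _ hst))) h'))
      (fun s t hs ht => by
        rw [union_inter_distrib_right, image_union, preimage_union, closure_union]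
        exact fun h => h.elim hs ht)
      (fun y _ => by simpa using h y)
    simpa using this
  intro y
  obtain ⟨𝒰, hU, hdis, hden⟩ := exists_family y
  have hUo : IsOpen (⋃₀ 𝒰) := isOpen_sUnion fun U h => (hU U h).1
  have hN : IsClosed (f ⁻¹' (q A '' (W \ ⋃₀ 𝒰))) :=
    (closed_image (hW.sdiff hUo) (hden.mono fun x hx h => h.2 hx)
      (diff_subset.trans hWA)).preimage hf
  obtain ⟨O, hO, hOc, hON⟩ := exists_mem_nhds_isClosed_subset (x := a) (hN.isOpen_compl.mem_nhds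
    fun h => star_notMem (diff_subset.trans hWA) ha₀ (by rw [ha]; exact h))
  let 𝒱 : Set (Set Y) := {U ∈ 𝒰 | ∃ k ∈ O, ∃ z ∈ U ∩ W, q A z = f k}
  have hfin : 𝒱.Finite := by
    choose k hk z hz hzk using fun U : 𝒱 => U.2.2
    have hsub : ∀ U ∈ 𝒰, (U ∩ range z).Finite := fun U hU' => by
      refine Subsingleton.finite ?_
      rintro _ ⟨h1, T, rfl⟩ _ ⟨h2, T', rfl⟩
      have e1 : T.1 = U := by
        by_contra h; exact disjoint_left.1 (hdis T.2.1 hU' h) (hz T).1 h1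
      have e2 : T'.1 = U := by
        by_contra h; exact disjoint_left.1 (hdis T'.2.1 hU' h) (hz T').1 h2
      rw [Subtype.ext (e1.trans e2.symm)]
    have hNW : (W \ ⋃₀ 𝒰) ∪ range z ⊆ W :=
      union_subset diff_subset (range_subset_iff.2 fun T => (hz T).2)
    have hc : IsClosed ((W \ ⋃₀ 𝒰) ∪ range z) := by
      rw [← isOpen_compl_iff, isOpen_iff_forall_mem_open]
      intro x hx
      by_cases hxW : x ∈ W
      · obtain ⟨U, hU', hxU⟩ : x ∈ ⋃₀ 𝒰 := by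
          by_contra h; exact hx (Or.inl ⟨hxW, h⟩)
        refine ⟨U \ (U ∩ range z), ?_, (hU U hU').1.sdiff (hsub U hU').isClosed, hxU,
          fun h => hx (Or.inr h.2)⟩
        rintro t ⟨htU, ht⟩ (h | h)
        · exact h.2 ⟨U, hU', htU⟩
        · exact ht ⟨htU, h⟩
      · exact ⟨Wᶜ, compl_subset_compl.2 hNW, hW.isOpen_compl, hxW⟩
    have hd : Dense ((W \ ⋃₀ 𝒰) ∪ range z)ᶜ := by
      refine dense_iff_inter_open.2 fun V hV hne => ?_
      obtain ⟨x, hxV, U, hU', hxU⟩ := hden.inter_open_nonempty V hV hne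
      obtain ⟨t, ht, ht'⟩ := (infinite_of_mem_nhds x ((hV.inter (hU U hU').1).mem_nhds
        ⟨hxV, hxU⟩)).exists_notMem_finite (hsub U hU')
      refine ⟨t, ht.1, ?_⟩
      rintro (h | h)
      · exact h.2 ⟨U, hU', ht.2⟩
      · exact ht' ⟨ht.2, h⟩
    have hcomp := (hOc.inter ((closed_image hc hd (hNW.trans hWA)).preimage hf)).isCompact
    obtain ⟨𝒯, h𝒯, hTf, hcov⟩ := hcomp.elim_finite_subcover_image (b := 𝒰)
      (c := fun U => f ⁻¹' (q A '' (U ∩ Aᶜ)))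
      (fun U hU' => (open_image ((hU U hU').1.inter hA.isOpen_compl)
        inter_subset_right).preimage hf) (by
        rintro t ⟨htO, x, hx, e⟩
        obtain ⟨U, hU', hxU⟩ : x ∈ ⋃₀ 𝒰 := by
          by_contra h; exact hON htO ⟨x, ⟨hNW hx, h⟩, e⟩
        exact mem_biUnion hU' ⟨x, ⟨hxU, hWA (hNW hx)⟩, e⟩)
    refine hTf.subset fun U hU' => ?_
    obtain ⟨T, hT, h⟩ := mem_iUnion₂.1 (hcov ⟨hk ⟨U, hU'⟩, _, Or.inr ⟨_, rfl⟩, hzk ⟨U, hU'⟩⟩)
    rw [mem_preimage, ← hzk, ← mem_preimage, pre_image inter_subset_right] at h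
    by_contra hn
    exact disjoint_left.1 (hdis hU'.1 (h𝒯 hT) fun e => hn (e ▸ hT)) (hz ⟨U, hU'⟩).1 h.1
  refine ⟨(⋃ U ∈ 𝒱, closure U)ᶜ, (hfin.isClosed_biUnion fun _ _ =>
    isClosed_closure).isOpen_compl.mem_nhds (by simpa using fun U h => (hU U h.1).2), fun h => ?_⟩
  obtain ⟨t, htO, x, ⟨hxV, hxW⟩, e⟩ := mem_closure_iff_nhds.1 h O hO
  obtain ⟨U, hU', hxU⟩ : x ∈ ⋃₀ 𝒰 := by
    by_contra h; exact hON htO ⟨x, ⟨hxW, h⟩, e⟩
  exact hxV (mem_biUnion ⟨hU', t, htO, x, ⟨hxU, hxW⟩, e⟩ (subset_closure hxU))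

theorem general [CompactSpace Y] [T2Space Y] [PerfectSpace Y] (hA : IsClosed A) :
    K2Haus.{u, v} (FMQ A) := by
  intro K _ _ _ f hf
  have half : ∀ a b : K, ∀ x ∈ A, ∀ y ∉ A, q A x = f a → q A y = f b →
      ∃ U ∈ 𝓝 a, ∃ V ∈ 𝓝 b, ∀ s ∈ U, ∀ t ∈ V, f s ≠ f t := by
    intro a b x hx y hy ea eb
    obtain ⟨W, hW, hWc, hWA⟩ := exists_mem_nhds_isClosed_subset (hA.isOpen_compl.mem_nhds hy)
    refine ⟨_, isClosed_closure.isOpen_compl.mem_nhds (core hA hf hWc hWA hx ea),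
      f ⁻¹' (q A '' interior W), ((open_image isOpen_interior (interior_subset.trans
        hWA)).preimage hf).mem_nhds ⟨y, mem_interior_iff_mem_nhds.2 hW, eb⟩,
      fun s hs t ht e => hs (subset_closure ?_)⟩
    rw [mem_preimage, e]
    exact image_mono interior_subset ht
  rw [← isOpen_compl_iff, isOpen_iff_mem_nhds]
  rintro ⟨a, b⟩ hab
  suffices h : ∃ U ∈ 𝓝 a, ∃ V ∈ 𝓝 b, ∀ s ∈ U, ∀ t ∈ V, f s ≠ f t by
    obtain ⟨U, hU, V, hV, h⟩ := h
    exact mem_of_superset (prod_mem_nhds hU hV) fun p hp => h _ hp.1 _ hp.2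
  obtain ⟨x, hx⟩ := q_surj (f a)
  obtain ⟨y, hy⟩ := q_surj (f b)
  have hne : q A x ≠ q A y := by rw [hx, hy]; exact hab
  by_cases hxA : x ∈ A
  · exact half a b x hxA y (fun h => hne (q_eq.2 (Or.inr ⟨hxA, h⟩))) hx hy
  by_cases hyA : y ∈ A
  · obtain ⟨U, hU, V, hV, h⟩ := half b a y hyA x hxA hy hx
    exact ⟨V, hV, U, hU, fun s hs t ht => (h t ht s hs).symm⟩
  obtain ⟨U, V, hU, hV, hxU, hyV, hd⟩ := t2_separation (fun h : x = y => hne (h ▸ rfl))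
  refine ⟨_, ((open_image (hU.inter hA.isOpen_compl) inter_subset_right).preimage hf).mem_nhds
    ⟨x, ⟨hxU, hxA⟩, hx⟩, _, ((open_image (hV.inter hA.isOpen_compl)
      inter_subset_right).preimage hf).mem_nhds ⟨y, ⟨hyV, hyA⟩, hy⟩, ?_⟩
  rintro s ⟨z, hz, e⟩ t ht e'
  rw [mem_preimage, ← e', ← e, ← mem_preimage, pre_image inter_subset_right] at ht
  exact disjoint_left.1 hd hz.1 ht.1

end

theorem result (Y : Type u) [TopologicalSpace Y] [CompactSpace Y] [T2Space Y] [PerfectSpace Y]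
    (A : Set Y) (hA : IsClosed A) : K2Haus.{u, v} (FMQ A) := general hA

end Pool.Agent.Results.MP_a8a70f_gt.K2Hausdorff
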